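import Mathlib

/-!
# A satisfactory colouring of the 8-smooth numbers that does not extend to the quotient group

The colouring depends only on a reduced exponent vector: for `m = 2^a 3^b 5^c 7^d` the exponents
`a`, `b`, `d` are reduced to `{0, 1, 2, 3, 4}` (the value `0` stays `0`, positive values are reduced
modulo `4` to `{1, 2, 3, 4}`) and `c` is reduced modulo `2`; the `250` values are stored in a table.
The numbers `12, 15, 3, 9, 5, 6, 10, 60` have the colours `1, ..., 8`, and all of them have the form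
`(15/2) j / i` with `i, j` at most `8`; so no colour is left for `15/2`.
-/

set_option autoImplicit false

namespace Pool.Agent.Results.MP_bda3cd_nt.NotExtendable

/-- The set of `n`-smooth positive integers, `K_n`. -/
def K (n : ℕ) : Set ℕ := {m | 0 < m ∧ ∀ p : ℕ, p.Prime → p ∣ m → p ≤ n}

/-- The set `K_n`, seen as a set of rational numbers. -/
def KQ (n : ℕ) : Set ℚ := {q | ∃ m ∈ K n, q = (m : ℚ)}

/-- The group of the positive rationals `a / b` with `a`, `b` both `n`-smooth. -/
def Khat (n : ℕ) : Set ℚ := {q | ∃ a ∈ K n, ∃ b ∈ K n, q = (a : ℚ) / (b : ℚ)}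

/-- `c` (used only on `X`) is an `n`-satisfactory colouring of `X`: the colours of the elements of
`X` are in `{1, ..., n}`, each `i` in `{1, ..., n}` has the colour `i`, and for every `x` in `X` the
elements `x, 2x, ..., nx` have pairwise different colours. -/
def IsSatisfactory (n : ℕ) (X : Set ℚ) (c : ℚ → ℕ) : Prop :=
  (∀ x ∈ X, 1 ≤ c x ∧ c x ≤ n) ∧
  (∀ i : ℕ, 1 ≤ i → i ≤ n → c (i : ℚ) = i) ∧
  (∀ x ∈ X, ∀ i j : ℕ, 1 ≤ i → i < j → j ≤ n → c ((i : ℚ) * x) ≠ c ((j : ℚ) * x))

/-- The table of colours (minus one), in base eight. -/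
def table : ℕ := 125898717474348109219128311366711637531015056093510082012276838936028659469152482324373694829477554015590784822182375551001620612904328034242515064674728365528671758042929374949958513633596851527783589991344799387739867728624

/-- Reduced exponent. -/
def nrm (a : ℕ) : ℕ := if a < 5 then a else 1 + (a - 1) % 4

/-- Table lookup for reduced exponents. -/
def look (a b c d : ℕ) : ℕ := (table >>> (3 * (((a * 5 + b) * 2 + c) * 5 + d))) % 8 + 1

/-- The colour in terms of the exponents. -/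
def colE (a b c d : ℕ) : ℕ := look (nrm a) (nrm b) (c % 2) (nrm d)

/-- The colouring of the positive integers. -/
def colN (m : ℕ) : ℕ := colE (padicValNat 2 m) (padicValNat 3 m) (padicValNat 5 m) (padicValNat 7 m)

/-- The colouring as a function on the rational numbers. -/
def col (x : ℚ) : ℕ := colN x.num.toNat

theorem col_natCast (m : ℕ) : col (m : ℚ) = colN m := by
  unfold col
  simp

/-- The exponents of `2, 3, 5, 7` in the first eight numbers. -/
def e2 (i : ℕ) : ℕ := if i = 8 then 3 else if i = 4 then 2 else if i = 2 ∨ i = 6 then 1 else 0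
def e3 (i : ℕ) : ℕ := if i = 3 ∨ i = 6 then 1 else 0
def e5 (i : ℕ) : ℕ := if i = 5 then 1 else 0
def e7 (i : ℕ) : ℕ := if i = 7 then 1 else 0

theorem val2 (i : ℕ) (h1 : 1 ≤ i) (h8 : i ≤ 8) : padicValNat 2 i = e2 i := by
  interval_cases i
  · simp [e2]
  · simp [e2]
  · rw [padicValNat.eq_zero_of_not_dvd (by norm_num)]; rfl
  · rw [show (4 : ℕ) = 2 ^ 2 by norm_num, padicValNat.prime_pow]; rfl
  · rw [padicValNat.eq_zero_of_not_dvd (by norm_num)]; rfl
  · rw [show (6 : ℕ) = 2 * 3 by norm_num, padicValNat.mul (by norm_num) (by norm_num),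
      padicValNat.self (by norm_num), padicValNat.eq_zero_of_not_dvd (by norm_num)]; rfl
  · rw [padicValNat.eq_zero_of_not_dvd (by norm_num)]; rfl
  · rw [show (8 : ℕ) = 2 ^ 3 by norm_num, padicValNat.prime_pow]; rfl

theorem val3 (i : ℕ) (h1 : 1 ≤ i) (h8 : i ≤ 8) : padicValNat 3 i = e3 i := by
  interval_cases i
  · simp [e3]
  · rw [padicValNat.eq_zero_of_not_dvd (by norm_num)]; rfl
  · rw [padicValNat.self (by norm_num)]; rfl
  · rw [padicValNat.eq_zero_of_not_dvd (by norm_num)]; rfl
  · rw [padicValNat.eq_zero_of_not_dvd (by norm_num)]; rfl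
  · rw [show (6 : ℕ) = 3 * 2 by norm_num, padicValNat.mul (by norm_num) (by norm_num),
      padicValNat.self (by norm_num), padicValNat.eq_zero_of_not_dvd (by norm_num)]; rfl
  · rw [padicValNat.eq_zero_of_not_dvd (by norm_num)]; rfl
  · rw [padicValNat.eq_zero_of_not_dvd (by norm_num)]; rfl

theorem val5 (i : ℕ) (h1 : 1 ≤ i) (h8 : i ≤ 8) : padicValNat 5 i = e5 i := by
  interval_cases i
  · simp [e5]
  · rw [padicValNat.eq_zero_of_not_dvd (by norm_num)]; rfl
  · rw [padicValNat.eq_zero_of_not_dvd (by norm_num)]; rfl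
  · rw [padicValNat.eq_zero_of_not_dvd (by norm_num)]; rfl
  · rw [padicValNat.self (by norm_num)]; rfl
  · rw [padicValNat.eq_zero_of_not_dvd (by norm_num)]; rfl
  · rw [padicValNat.eq_zero_of_not_dvd (by norm_num)]; rfl
  · rw [padicValNat.eq_zero_of_not_dvd (by norm_num)]; rfl

theorem val7 (i : ℕ) (h1 : 1 ≤ i) (h8 : i ≤ 8) : padicValNat 7 i = e7 i := by
  interval_cases i
  · simp [e7]
  · rw [padicValNat.eq_zero_of_not_dvd (by norm_num)]; rfl
  · rw [padicValNat.eq_zero_of_not_dvd (by norm_num)]; rfl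
  · rw [padicValNat.eq_zero_of_not_dvd (by norm_num)]; rfl
  · rw [padicValNat.eq_zero_of_not_dvd (by norm_num)]; rfl
  · rw [padicValNat.eq_zero_of_not_dvd (by norm_num)]; rfl
  · rw [padicValNat.self (by norm_num)]; rfl
  · rw [padicValNat.eq_zero_of_not_dvd (by norm_num)]; rfl

theorem nrm_lt (a : ℕ) : nrm a < 5 := by
  unfold nrm
  split_ifs <;> omega

theorem nrm_add (a k : ℕ) : nrm (k + a) = nrm (k + nrm a) := by
  unfold nrm
  split_ifs <;> omega

theorem colN_mul {m : ℕ} (hm : 0 < m) (i : ℕ) (h1 : 1 ≤ i) (h8 : i ≤ 8) :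
    colN (i * m) = look (nrm (e2 i + nrm (padicValNat 2 m))) (nrm (e3 i + nrm (padicValNat 3 m)))
      ((e5 i + padicValNat 5 m % 2) % 2) (nrm (e7 i + nrm (padicValNat 7 m))) := by
  have hi : i ≠ 0 := by omega
  have hm0 : m ≠ 0 := by omega
  have : Fact (Nat.Prime 2) := ⟨by norm_num⟩
  have : Fact (Nat.Prime 3) := ⟨by norm_num⟩
  have : Fact (Nat.Prime 5) := ⟨by norm_num⟩
  have : Fact (Nat.Prime 7) := ⟨by norm_num⟩
  unfold colN colE
  rw [padicValNat.mul hi hm0, padicValNat.mul hi hm0, padicValNat.mul hi hm0,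
    padicValNat.mul hi hm0, val2 i h1 h8, val3 i h1 h8, val5 i h1 h8, val7 i h1 h8,
    ← nrm_add, ← nrm_add, ← nrm_add]
  congr 1
  omega

/-- The check for one reduced exponent vector and one pair of multipliers. -/
def chk (a b c d i j : ℕ) : Bool :=
  !(Nat.beq (look (nrm (e2 i + a)) (nrm (e3 i + b)) ((e5 i + c) % 2) (nrm (e7 i + d)))
    (look (nrm (e2 j + a)) (nrm (e3 j + b)) ((e5 j + c) % 2) (nrm (e7 j + d))))

/-- Bounded universal quantification as a Boolean. -/
def allB (n : ℕ) (f : ℕ → Bool) : Bool := Nat.rec true (fun k r => r && f k) n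

theorem allB_spec {n : ℕ} {f : ℕ → Bool} (h : allB n f = true) : ∀ k, k < n → f k = true := by
  induction n with
  | zero => intro k hk; omega
  | succ n ih =>
    intro k hk
    have h' : (allB n f && f n) = true := h
    rw [Bool.and_eq_true] at h'
    rcases Nat.lt_succ_iff_lt_or_eq.1 hk with h1 | h1
    · exact ih h'.1 k h1
    · rw [h1]; exact h'.2

/-- The whole finite check. -/
def bigCheck : Bool :=
  allB 5 fun a => allB 5 fun b => allB 2 fun c => allB 5 fun d =>
    allB 9 fun j => allB j fun i => (Nat.beq i 0) || chk a b c d i j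

theorem bigCheck_true : bigCheck = true := by decide +kernel

theorem chk_true {a b c d i j : ℕ} (ha : a < 5) (hb : b < 5) (hc : c < 2) (hd : d < 5)
    (h1 : 1 ≤ i) (hij : i < j) (h8 : j ≤ 8) : chk a b c d i j = true := by
  have h := allB_spec (allB_spec (allB_spec (allB_spec (allB_spec (allB_spec bigCheck_true a ha)
    b hb) c hc) d hd) j (by omega)) i hij
  rw [Bool.or_eq_true] at h
  rcases h with h | h
  · have := Nat.eq_of_beq_eq_true h
    omega
  · exact h

theorem colN_ne {m : ℕ} (hm : 0 < m) (i j : ℕ) (h1 : 1 ≤ i) (hij : i < j) (h8 : j ≤ 8) :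
    colN (i * m) ≠ colN (j * m) := by
  rw [colN_mul hm i h1 (by omega), colN_mul hm j (by omega) h8]
  have h := chk_true (nrm_lt (padicValNat 2 m)) (nrm_lt (padicValNat 3 m))
    (Nat.mod_lt (padicValNat 5 m) (by norm_num : 0 < 2)) (nrm_lt (padicValNat 7 m)) h1 hij h8
  unfold chk at h
  intro he
  rw [he, Bool.not_eq_true'] at h
  rw [Nat.beq_refl] at h
  exact absurd h (by decide)

theorem colN_range (m : ℕ) : 1 ≤ colN m ∧ colN m ≤ 8 := by
  unfold colN colE look
  omega

theorem colN_small (i : ℕ) (h1 : 1 ≤ i) (h8 : i ≤ 8) : colN i = i := by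
  have h := colN_mul (m := 1) one_pos i h1 h8
  rw [mul_one] at h
  rw [h]
  simp only [padicValNat_one_right]
  interval_cases i <;> decide +kernel

theorem col_satisfactory : IsSatisfactory 8 (KQ 8) col := by
  refine ⟨fun x hx => ?_, fun i h1 h8 => ?_, fun x hx i j h1 hij h8 => ?_⟩
  · exact colN_range _
  · rw [col_natCast]
    exact colN_small i h1 h8
  · obtain ⟨m, hm, rfl⟩ := hx
    have e1 : ((i : ℚ) * (m : ℚ)) = ((i * m : ℕ) : ℚ) := by push_cast; ring
    have e2 : ((j : ℚ) * (m : ℚ)) = ((j * m : ℕ) : ℚ) := by push_cast; ring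
    rw [e1, e2, col_natCast, col_natCast]
    exact colN_ne hm.1 i j h1 hij h8

/-- Multiplying two small numbers. -/
theorem colN_mul_small (i m : ℕ) (h1 : 1 ≤ i) (h8 : i ≤ 8) (h1' : 1 ≤ m) (h8' : m ≤ 8) :
    colN (i * m) = look (nrm (e2 i + nrm (e2 m))) (nrm (e3 i + nrm (e3 m)))
      ((e5 i + e5 m % 2) % 2) (nrm (e7 i + nrm (e7 m))) := by
  rw [colN_mul (by omega) i h1 h8, val2 m h1' h8', val3 m h1' h8', val5 m h1' h8', val7 m h1' h8']

theorem colN_12 : colN 12 = 1 := by
  rw [show (12 : ℕ) = 3 * 4 by norm_num, colN_mul_small 3 4 (by norm_num) (by norm_num)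
    (by norm_num) (by norm_num)]
  decide +kernel

theorem colN_15 : colN 15 = 2 := by
  rw [show (15 : ℕ) = 3 * 5 by norm_num, colN_mul_small 3 5 (by norm_num) (by norm_num)
    (by norm_num) (by norm_num)]
  decide +kernel

theorem colN_9 : colN 9 = 4 := by
  rw [show (9 : ℕ) = 3 * 3 by norm_num, colN_mul_small 3 3 (by norm_num) (by norm_num)
    (by norm_num) (by norm_num)]
  decide +kernel

theorem colN_10 : colN 10 = 7 := by
  rw [show (10 : ℕ) = 2 * 5 by norm_num, colN_mul_small 2 5 (by norm_num) (by norm_num)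
    (by norm_num) (by norm_num)]
  decide +kernel

theorem colN_60 : colN 60 = 8 := by
  have : Fact (Nat.Prime 2) := ⟨by norm_num⟩
  have : Fact (Nat.Prime 3) := ⟨by norm_num⟩
  have : Fact (Nat.Prime 5) := ⟨by norm_num⟩
  have : Fact (Nat.Prime 7) := ⟨by norm_num⟩
  rw [show (60 : ℕ) = 6 * 10 by norm_num, colN_mul (by norm_num) 6 (by norm_num) (by norm_num),
    show (10 : ℕ) = 2 * 5 by norm_num, padicValNat.mul (by norm_num) (by norm_num),
    padicValNat.mul (by norm_num) (by norm_num), padicValNat.mul (by norm_num) (by norm_num),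
    padicValNat.mul (by norm_num) (by norm_num),
    val2 2 (by norm_num) (by norm_num), val2 5 (by norm_num) (by norm_num),
    val3 2 (by norm_num) (by norm_num), val3 5 (by norm_num) (by norm_num),
    val5 2 (by norm_num) (by norm_num), val5 5 (by norm_num) (by norm_num),
    val7 2 (by norm_num) (by norm_num), val7 5 (by norm_num) (by norm_num)]
  decide +kernel

/-- The divisors of `60` are `8`-smooth. -/
theorem mem_K {m : ℕ} (h : m ∣ 60) : m ∈ K 8 := by
  refine ⟨Nat.pos_of_dvd_of_pos h (by norm_num), fun p hp hpm => ?_⟩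
  have h60 : p ∣ 2 ^ 2 * 3 * 5 := by
    have : (2 ^ 2 * 3 * 5 : ℕ) = 60 := by norm_num
    rw [this]
    exact hpm.trans h
  rcases (Nat.Prime.dvd_mul hp).1 h60 with h1 | h1
  · rcases (Nat.Prime.dvd_mul hp).1 h1 with h2 | h2
    · have := Nat.le_of_dvd (by norm_num) (hp.dvd_of_dvd_pow h2)
      omega
    · have := Nat.le_of_dvd (by norm_num) h2
      omega
  · have := Nat.le_of_dvd (by norm_num) h1
    omega

theorem mem_K9 : (9 : ℕ) ∈ K 8 := by
  refine ⟨by norm_num, fun p hp hpm => ?_⟩
  rw [show (9 : ℕ) = 3 ^ 2 by norm_num] at hpm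
  have := Nat.le_of_dvd (by norm_num) (hp.dvd_of_dvd_pow hpm)
  omega

/-- There is an `8`-satisfactory colouring of `K_8` that is not the restriction of an
`8`-satisfactory colouring of the group generated by `K_8`. -/
theorem result :
    ∃ c : ℚ → ℕ, IsSatisfactory 8 (KQ 8) c ∧
      ¬ ∃ c' : ℚ → ℕ, IsSatisfactory 8 (Khat 8) c' ∧ ∀ x ∈ KQ 8, c' x = c x := by
  refine ⟨col, col_satisfactory, ?_⟩
  rintro ⟨c', ⟨hr, hb, hc⟩, hext⟩
  have hK : ∀ m : ℕ, m ∈ K 8 → c' (m : ℚ) = colN m := fun m hm => by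
    rw [hext _ ⟨m, hm, rfl⟩, col_natCast]
  have w1 : (15 / 2 : ℚ) ∈ Khat 8 := ⟨15, mem_K (by norm_num), 2, mem_K (by norm_num), by norm_num⟩
  have w3 : (5 / 2 : ℚ) ∈ Khat 8 := ⟨5, mem_K (by norm_num), 2, mem_K (by norm_num), by norm_num⟩
  have w5 : (3 / 2 : ℚ) ∈ Khat 8 := ⟨3, mem_K (by norm_num), 2, mem_K (by norm_num), by norm_num⟩
  have hz := hr _ w1
  -- colour 1
  have n1 : c' (12 : ℚ) ≠ c' (15 / 2) := by
    have := hc _ w5 5 8 (by norm_num) (by norm_num) (by norm_num)
    norm_num at this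
    exact fun h => this h.symm
  have n2 : c' (15 : ℚ) ≠ c' (15 / 2) := by
    have := hc _ w1 1 2 (by norm_num) (by norm_num) (by norm_num)
    norm_num at this
    exact fun h => this h.symm
  have n3 : c' (3 : ℚ) ≠ c' (15 / 2) := by
    have := hc _ w5 2 5 (by norm_num) (by norm_num) (by norm_num)
    norm_num at this
    exact this
  have n4 : c' (9 : ℚ) ≠ c' (15 / 2) := by
    have := hc _ w5 5 6 (by norm_num) (by norm_num) (by norm_num)
    norm_num at this
    exact fun h => this h.symm
  have n5 : c' (5 : ℚ) ≠ c' (15 / 2) := by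
    have := hc _ w3 2 3 (by norm_num) (by norm_num) (by norm_num)
    norm_num at this
    exact this
  have n6 : c' (6 : ℚ) ≠ c' (15 / 2) := by
    have := hc _ w5 4 5 (by norm_num) (by norm_num) (by norm_num)
    norm_num at this
    exact this
  have n7 : c' (10 : ℚ) ≠ c' (15 / 2) := by
    have := hc _ w3 3 4 (by norm_num) (by norm_num) (by norm_num)
    norm_num at this
    exact fun h => this h.symm
  have n8 : c' (60 : ℚ) ≠ c' (15 / 2) := by
    have := hc _ w1 1 8 (by norm_num) (by norm_num) (by norm_num)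
    norm_num at this
    exact fun h => this h.symm
  have v1 : c' (12 : ℚ) = 1 := by have := hK 12 (mem_K (by norm_num)); rw [colN_12] at this; exact_mod_cast this
  have v2 : c' (15 : ℚ) = 2 := by have := hK 15 (mem_K (by norm_num)); rw [colN_15] at this; exact_mod_cast this
  have v3 : c' (3 : ℚ) = 3 := by have := hb 3 (by norm_num) (by norm_num); exact_mod_cast this
  have v4 : c' (9 : ℚ) = 4 := by have := hK 9 mem_K9; rw [colN_9] at this; exact_mod_cast this
  have v5 : c' (5 : ℚ) = 5 := by have := hb 5 (by norm_num) (by norm_num); exact_mod_cast this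
  have v6 : c' (6 : ℚ) = 6 := by have := hb 6 (by norm_num) (by norm_num); exact_mod_cast this
  have v7 : c' (10 : ℚ) = 7 := by have := hK 10 (mem_K (by norm_num)); rw [colN_10] at this; exact_mod_cast this
  have v8 : c' (60 : ℚ) = 8 := by have := hK 60 (mem_K (by norm_num)); rw [colN_60] at this; exact_mod_cast this
  rw [v1] at n1
  rw [v2] at n2
  rw [v3] at n3
  rw [v4] at n4
  rw [v5] at n5
  rw [v6] at n6
  rw [v7] at n7
  rw [v8] at n8
  omega

end Pool.Agent.Results.MP_bda3cd_nt.NotExtendable
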